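import Pool.Agent.MP_c1891a_nt.H43.Spec

/-
The push-forward of a Laurent polynomial under multiplication by `n`.
-/

namespace Pool.Agent.MP_c1891a_nt.H43

open Finset Polynomial

/-- the character `μ ↦ x ^ μ₁ y ^ μ₂`. -/
noncomputable def pushChar (x y : ℂ) (hx : x ≠ 0) (hy : y ≠ 0) :
    Multiplicative (ℤ × ℤ) →* ℂ where
  toFun μ := x ^ (Multiplicative.toAdd μ).1 * y ^ (Multiplicative.toAdd μ).2
  map_one' := by simp
  map_mul' a b := by
    simp only [toAdd_mul, Prod.fst_add, Prod.snd_add, zpow_add₀ hx, zpow_add₀ hy]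
    ring

/-- evaluation as a ring homomorphism. -/
noncomputable def pushHom (x y : ℂ) (hx : x ≠ 0) (hy : y ≠ 0) : LP →+* ℂ :=
  (AddMonoidAlgebra.lift ℤ ℂ (ℤ × ℤ) (pushChar x y hx hy)).toRingHom

theorem push_hom_eq (x y : ℂ) (hx : x ≠ 0) (hy : y ≠ 0) (P : LP) :
    pushHom x y hx hy P = ev P x y := by
  change AddMonoidAlgebra.lift ℤ ℂ (ℤ × ℤ) (pushChar x y hx hy) P = _
  rw [AddMonoidAlgebra.lift_apply, Finsupp.sum, ev]
  refine Finset.sum_congr rfl fun μ _ => ?_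
  simp [pushChar, mul_assoc]

theorem push_hom_single (x y : ℂ) (hx : x ≠ 0) (hy : y ≠ 0) (μ : ℤ × ℤ) (c : ℤ) :
    pushHom x y hx hy (AddMonoidAlgebra.single μ c) = (c : ℂ) * x ^ μ.1 * y ^ μ.2 := by
  change AddMonoidAlgebra.lift ℤ ℂ (ℤ × ℤ) (pushChar x y hx hy) _ = _
  rw [AddMonoidAlgebra.lift_single]
  simp [pushChar, mul_assoc]

theorem push_swap (P : LP) : ∃ Q : LP, ∀ x y : ℂ, x ≠ 0 → y ≠ 0 → ev Q x y = ev P y x := by
  refine ⟨∑ μ ∈ P.coeff.support, AddMonoidAlgebra.single (μ.2, μ.1) (P.coeff μ),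
    fun x y hx hy => ?_⟩
  rw [← push_hom_eq x y hx hy, map_sum, ev]
  refine Finset.sum_congr rfl fun μ _ => ?_
  rw [push_hom_single]
  ring

theorem push_fac (n : ℕ) (hn : 0 < n) (x : ℂ) (hx : x ≠ 0) :
    (X ^ n - C (x ^ n) : ℂ[X]) = ∏ η ∈ nthRootsFinset n (1 : ℂ), (X - C (η * x)) := by
  have hζ := Complex.isPrimitiveRoot_exp n hn.ne'
  have h1 := X_pow_sub_one_eq_prod hn hζ
  have hc := hζ.card_nthRootsFinset
  apply Polynomial.funext
  intro z
  have h2 := congrArg (Polynomial.eval (z / x)) h1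
  simp only [eval_sub, eval_pow, eval_X, eval_one, eval_prod, eval_C] at h2 ⊢
  have h3 : ∏ η ∈ nthRootsFinset n (1 : ℂ), (z - η * x) =
      ∏ η ∈ nthRootsFinset n (1 : ℂ), (x * (z / x - η)) := by
    refine Finset.prod_congr rfl fun η _ => ?_
    field_simp
  rw [h3, Finset.prod_mul_distrib, Finset.prod_const, hc, ← h2, div_pow]
  field_simp

theorem push_res (n : ℕ) (hn : 0 < n) (x : ℂ) (hx : x ≠ 0) (g : ℂ[X]) (m : ℕ)
    (hg : g.natDegree ≤ m) :
    resultant (X ^ n - C (x ^ n)) g n m = ∏ η ∈ nthRootsFinset n (1 : ℂ), g.eval (η * x) := by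
  have h := resultant_eq_prod_eval (X ^ n - C (x ^ n) : ℂ[X]) g m hg (IsAlgClosed.splits _)
  rw [natDegree_X_pow_sub_C, (monic_X_pow_sub_C _ hn.ne').leadingCoeff, one_pow, one_mul] at h
  rw [h, push_fac n hn x hx]
  have h2 : (∏ η ∈ nthRootsFinset n (1 : ℂ), (X - C (η * x))).roots =
      (nthRootsFinset n (1 : ℂ)).val.map fun η => η * x := by
    rw [← roots_multiset_prod_X_sub_C ((nthRootsFinset n (1 : ℂ)).val.map fun η => η * x),
      Multiset.map_map]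
    rfl
  rw [h2, Multiset.map_map]
  rfl

theorem push_one (P : LP) (n : ℕ) (hn : 0 < n) : ∃ R : LP, ∀ x y : ℂ, x ≠ 0 → y ≠ 0 →
    ev R (x ^ n) y = ∏ η ∈ nthRootsFinset n (1 : ℂ), ev P (η * x) y := by
  obtain ⟨K, hK⟩ : ∃ K : ℕ, ∀ μ ∈ P.coeff.support, 0 ≤ μ.1 + (n * K : ℕ) := by
    refine ⟨P.coeff.support.sup fun μ => μ.1.natAbs, fun μ hμ => ?_⟩
    have h1 := Finset.le_sup (f := fun μ : ℤ × ℤ => μ.1.natAbs) hμ
    have h2 := Nat.le_mul_of_pos_left (P.coeff.support.sup fun μ => μ.1.natAbs) hn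
    omega
  let f : LP[X] := ∑ μ ∈ P.coeff.support,
    C (AddMonoidAlgebra.single ((0 : ℤ), μ.2) (P.coeff μ)) * X ^ (μ.1 + (n * K : ℕ)).toNat
  let g : LP[X] := X ^ n - C (AddMonoidAlgebra.single ((1 : ℤ), (0 : ℤ)) 1)
  refine ⟨resultant g f n f.natDegree * AddMonoidAlgebra.single (-((n * K : ℕ) : ℤ), 0) 1,
    fun x y hx hy => ?_⟩
  have hu : x ^ n ≠ 0 := pow_ne_zero n hx
  rw [← push_hom_eq _ y hu hy, map_mul, ← resultant_map_map, push_hom_single]
  have hg : g.map (pushHom (x ^ n) y hu hy) = X ^ n - C (x ^ n) := by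
    simp [g, push_hom_single]
  rw [hg, push_res n hn x hx _ _ natDegree_map_le]
  have hc := (Complex.isPrimitiveRoot_exp n hn.ne').card_nthRootsFinset
  have h3 : ∀ η ∈ nthRootsFinset n (1 : ℂ),
      (f.map (pushHom (x ^ n) y hu hy)).eval (η * x) = (x ^ n) ^ K * ev P (η * x) y := by
    intro η hη
    have hη1 : η ^ n = 1 := (mem_nthRootsFinset hn 1).1 hη
    have hη0 : η * x ≠ 0 := mul_ne_zero (ne_zero_of_mem_nthRootsFinset one_ne_zero hη) hx
    simp only [f, Polynomial.map_sum, Polynomial.map_mul, map_C, Polynomial.map_pow, map_X,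
      eval_finsetSum, eval_mul, eval_C, eval_pow, eval_X, push_hom_single, ev, Finset.mul_sum]
    refine Finset.sum_congr rfl fun μ hμ => ?_
    have h4 : (η * x) ^ (μ.1 + (n * K : ℕ)).toNat = (η * x) ^ μ.1 * (x ^ n) ^ K := by
      rw [← zpow_natCast, Int.toNat_of_nonneg (hK μ hμ), zpow_add₀ hη0, zpow_natCast, pow_mul,
        mul_pow, hη1, one_mul]
    rw [h4]
    simp only [zpow_zero]
    ring
  rw [Finset.prod_congr rfl h3, Finset.prod_mul_distrib, Finset.prod_const, hc]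
  simp only [zpow_neg, zpow_natCast, zpow_zero, Int.cast_one]
  rw [← pow_mul (x ^ n) K n, mul_comm K n]
  have := pow_ne_zero (n * K) hu
  rw [one_mul, mul_one, mul_comm, ← mul_assoc, inv_mul_cancel₀ this, one_mul]

theorem sPush : SPush := by
  intro P n hn
  obtain ⟨R₁, h₁⟩ := push_one P n hn
  obtain ⟨R₂, h₂⟩ := push_swap R₁
  obtain ⟨R₃, h₃⟩ := push_one R₂ n hn
  obtain ⟨R₄, h₄⟩ := push_swap R₃
  refine ⟨R₄, fun x y hx hy => ?_⟩
  have hu : x ^ n ≠ 0 := pow_ne_zero n hx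
  rw [h₄ _ _ hu (pow_ne_zero n hy), h₃ _ _ hy hu, Finset.prod_comm]
  refine Finset.prod_congr rfl fun η hη => ?_
  have hη0 : η * y ≠ 0 := mul_ne_zero (ne_zero_of_mem_nthRootsFinset one_ne_zero hη) hy
  rw [h₂ _ _ hη0 hu, h₁ _ _ hx hη0]

end Pool.Agent.MP_c1891a_nt.H43
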